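import Mathlib

/-!
# Monochromatic 3-term progressions with fixed ℓ¹-norm step

The proof: words over `ℤ` form a free monoid `M`; words over `ℤ × ℤ` (a letter `(x, v)` stands for
the column `(x - v, x, x + v)`) form a free monoid `W`.  In the compact right topological semigroup
`βM` of ultrafilters we take an idempotent `p` in a minimal left ideal, so that `p βM p` is a group.
Triples of elements of this group are *realised with cost `κ`* if there is an ultrafilter on `W`
whose three rows are the given ultrafilters and which lives on words of cost `κ`.  In the group we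
can use inverses of diagonal (cost `0`) elements, and this gives one triple realised both with cost
`2 ^ j` and with cost `4 ^ j`.  The Hales-Jewett theorem finishes the proof.
-/

set_option autoImplicit false

namespace Pool.Agent.MP7ae277

open Filter

attribute [local instance] Ultrafilter.mul Ultrafilter.semigroup

/-! ### A group inside a compact right topological semigroup -/

theorem exists_group_idempotent {S : Type*} [Nonempty S] [Semigroup S] [TopologicalSpace S]
    [CompactSpace S] [T2Space S] (hc : ∀ r : S, Continuous (· * r)) :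
    ∃ p : S, p * p = p ∧ ∀ x : S, ∃ y : S, (p * y * p) * (p * x * p) = p := by
  let C : Set (Set S) := {N | IsClosed N ∧ N.Nonempty ∧ ∀ s : S, ∀ x ∈ N, s * x ∈ N}
  obtain ⟨L, hL⟩ : ∃ L, Minimal (· ∈ C) L := by
    refine zorn_superset _ fun c hcs hc' => ?_
    refine ⟨⋂₀ c, ⟨isClosed_sInter fun t ht => (hcs ht).1, ?_, fun s x hx => ?_⟩, fun s hs =>
      Set.sInter_subset_of_mem hs⟩
    · obtain rfl | hcnemp := c.eq_empty_or_nonempty
      · rw [Set.sInter_empty]
        apply Set.univ_nonempty
      convert!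
        @IsCompact.nonempty_iInter_of_directed_nonempty_isCompact_isClosed _ _ _ hcnemp.coe_sort
          ((↑) : c → Set S) ?_ ?_ ?_ ?_
      · exact Set.sInter_eq_iInter
      · refine DirectedOn.directed_val (IsChain.directedOn hc'.symm)
      exacts [fun i => (hcs i.prop).2.1, fun i => (hcs i.prop).1.isCompact,
        fun i => (hcs i.prop).1]
    · rw [Set.mem_sInter]
      exact fun t ht => (hcs ht).2.2 s x (Set.mem_sInter.mp hx t ht)
  obtain ⟨hLc, hLn, hLi⟩ := hL.prop
  obtain ⟨p, hpL, hpp⟩ := exists_idempotent_in_compact_subsemigroup hc L hLn hLc.isCompact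
    (fun x _ y hy => hLi x y hy)
  refine ⟨p, hpp, fun x => ?_⟩
  have hx' : p * x * p ∈ L := hLi _ _ hpL
  have himg : (fun s => s * (p * x * p)) '' Set.univ = L := by
    apply hL.eq_of_subset
    · refine ⟨(hc _).isClosedMap _ isClosed_univ, ?_, ?_⟩
      · exact ⟨_, ⟨p, trivial, rfl⟩⟩
      · rintro s _ ⟨t, -, rfl⟩
        exact ⟨s * t, trivial, mul_assoc _ _ _⟩
    · rintro _ ⟨t, -, rfl⟩
      exact hLi _ _ hx'
  have hpm : p ∈ (fun s => s * (p * x * p)) '' Set.univ := himg.symm ▸ hpL
  obtain ⟨y, -, hy⟩ := hpm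
  refine ⟨y, ?_⟩
  have hy' : y * (p * x * p) = p := hy
  calc (p * y * p) * (p * x * p) = p * (y * ((p * p) * x * p)) := by simp only [mul_assoc]
    _ = p * (y * (p * x * p)) := by rw [hpp]
    _ = p * p := by rw [hy']
    _ = p := hpp

/-- The corner `p S p`. -/
def Corner {S : Type*} [Semigroup S] (p : S) : Type _ := {x : S // p * x = x ∧ x * p = x}

/-- The group structure of the corner. -/
@[instance_reducible]
noncomputable def cornerGroup {S : Type*} [Semigroup S] (p : S) (hp : p * p = p)
    (h : ∀ x : S, ∃ y : S, (p * y * p) * (p * x * p) = p) : Group (Corner p) :=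
  letI : Mul (Corner p) := ⟨fun a b => ⟨a.1 * b.1, by rw [← mul_assoc, a.2.1],
    by rw [mul_assoc, b.2.2]⟩⟩
  letI : One (Corner p) := ⟨⟨p, hp, hp⟩⟩
  letI : Inv (Corner p) := ⟨fun a => ⟨p * (h a.1).choose * p,
    by rw [← mul_assoc, ← mul_assoc, hp], by rw [mul_assoc, hp]⟩⟩
  Group.ofLeftAxioms (fun a b c => Subtype.ext (mul_assoc _ _ _))
    (fun a => Subtype.ext a.2.1)
    (fun a => Subtype.ext ((congrArg (fun z => p * (h a.1).choose * p * z)
      (show a.1 = p * a.1 * p by rw [a.2.1, a.2.2])).trans (h a.1).choose_spec))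

/-! ### The algebra in an abstract group -/

/-- The coefficient of the three rows. -/
def tau : Fin 3 → ℤ := ![-1, 0, 1]

/-- Abstract properties of the relation that the triple `r` is realised with cost `κ`. -/
structure Realises (G : Type*) [Group G] (g : ℤ → G) (Rz : ℕ → (Fin 3 → G) → Prop) : Prop where
  mul : ∀ {κ κ' : ℕ} {r r' : Fin 3 → G}, Rz κ r → Rz κ' r' → Rz (κ + κ') (r * r')
  diag : ∀ h : G, Rz 0 (fun _ => h)
  letter : ∀ y a : ℤ, Rz a.natAbs (fun t => g (y + tau t * a))

namespace Realises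

variable {G : Type*} [Group G] {g : ℤ → G} {Rz : ℕ → (Fin 3 → G) → Prop}

theorem pow (H : Realises G g Rz) {κ : ℕ} {r : Fin 3 → G} (h : Rz κ r) (m : ℕ) :
    Rz (m * κ) (r ^ m) := by
  induction m with
  | zero =>
    rw [zero_mul, pow_zero]
    exact H.diag 1
  | succ m ih =>
    have := H.mul ih h
    rwa [← pow_succ, ← Nat.succ_mul] at this

/-- The doubling relation. -/
theorem double (H : Realises G g Rz) (κ : ℕ) (a : ℤ)
    (h1 : ∀ y, Rz κ (fun t => g (y + tau t * a)))
    (h2 : ∀ y, Rz κ (fun t => g (y + tau t * (-a)))) (y : ℤ) :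
    Rz (4 * κ) (fun t => g (y + tau t * (2 * a))) := by
  have h := H.mul (H.mul (H.mul (H.mul (H.mul (H.mul (h1 y) (H.diag (g (y - a))⁻¹)) (h1 (y - a)))
    (H.diag (g y)⁻¹)) (h2 y)) (H.diag (g (y + a))⁻¹)) (h1 (y + a))
  convert h using 1
  · ring
  · funext t
    simp only [Pi.mul_apply]
    fin_cases t
    · have e1 : y + tau 0 * (2 * a) = y - 2 * a := by simp [tau]; ring
      have e2 : y + tau 0 * a = y - a := by simp [tau]; ring
      have e3 : y - a + tau 0 * a = y - 2 * a := by simp [tau]; ring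
      have e4 : y + tau 0 * (-a) = y + a := by simp [tau]
      have e5 : y + a + tau 0 * a = y := by simp [tau]
      simp only [Fin.zero_eta, e1, e2, e3, e4, e5]
      group
    · have e1 : ∀ z b : ℤ, z + tau 1 * b = z := by intro z b; simp [tau]
      simp only [Fin.mk_one, e1]
      group
    · have e0 : (⟨2, by norm_num⟩ : Fin 3) = 2 := rfl
      have e1 : y + tau 2 * (2 * a) = y + 2 * a := by simp [tau]
      have e2 : y + tau 2 * a = y + a := by simp [tau]
      have e3 : y - a + tau 2 * a = y := by simp [tau]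
      have e4 : y + tau 2 * (-a) = y - a := by simp [tau]; ring
      have e5 : y + a + tau 2 * a = y + 2 * a := by simp [tau]; ring
      simp only [Fin.reduceFinMk, e1, e2, e3, e4, e5]
      group

theorem four_pow (H : Realises G g Rz) (j : ℕ) :
    (∀ y, Rz (4 ^ j) (fun t => g (y + tau t * 2 ^ j))) ∧
      (∀ y, Rz (4 ^ j) (fun t => g (y + tau t * (-2 ^ j)))) := by
  induction j with
  | zero =>
    refine ⟨fun y => ?_, fun y => ?_⟩
    · simpa using H.letter y 1
    · simpa using H.letter y (-1)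
  | succ j ih =>
    obtain ⟨h1, h2⟩ := ih
    refine ⟨fun y => ?_, fun y => ?_⟩
    · have := H.double (4 ^ j) (2 ^ j) h1 h2 y
      convert this using 1
      · ring
      · funext t; congr 2; ring
    · have := H.double (4 ^ j) (-2 ^ j) h2 (by simpa using h1) y
      convert this using 1
      · ring
      · funext t; congr 2; ring

/-- A triple which is realised with all the costs `c, 2c, …, Λc`. -/
theorem exists_multi (Λ : ℕ) (H : Realises G g Rz) :
    ∃ ρ : Fin 3 → G, ∀ i : ℕ, 1 ≤ i → i ≤ Λ → Rz (i * ((4 ^ Λ - 2 ^ Λ) * 2 ^ Λ)) ρ := by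
  have hbig : Rz (4 ^ Λ) (fun t => g (0 + tau t * 2 ^ Λ)) := (H.four_pow Λ).1 0
  have hsmall : Rz (2 ^ Λ) (fun t => g (0 + tau t * 2 ^ Λ)) := by
    have := H.letter 0 (2 ^ Λ)
    simpa [Int.natAbs_pow] using this
  refine ⟨(fun t => g (0 + tau t * 2 ^ Λ)) ^ (4 ^ Λ - 2 ^ Λ), fun i hi1 hi2 => ?_⟩
  have hΛ : Λ ≤ 2 ^ Λ := Nat.lt_two_pow_self.le
  have h42 : (4 : ℕ) ^ Λ = 2 ^ Λ * 2 ^ Λ := by rw [← mul_pow]; norm_num
  have hs : (i - 1) * 2 ^ Λ ≤ 4 ^ Λ - 2 ^ Λ := by
    rw [h42, ← Nat.sub_one_mul]
    exact Nat.mul_le_mul_right _ (by omega)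
  have h := H.mul (H.pow hsmall (4 ^ Λ - 2 ^ Λ - (i - 1) * 2 ^ Λ))
    (H.pow hbig ((i - 1) * 2 ^ Λ))
  rw [← pow_add, Nat.sub_add_cancel hs] at h
  convert h using 1
  obtain ⟨i, rfl⟩ : ∃ m, i = m + 1 := ⟨i - 1, by omega⟩
  simp only [Nat.add_sub_cancel] at hs ⊢
  have hle : (2 : ℕ) ^ Λ ≤ 4 ^ Λ := Nat.pow_le_pow_left (by norm_num) _
  zify [hs, hle]
  ring

/-- Products along a combinatorial line, all wildcards cheap. -/
theorem line_cheap (H : Realises G g Rz) {ι : Type*} (ρ : Fin 3 → G) (c : ℕ)
    (hρ : Rz c ρ) (idx : ι → Option (Fin 3)) (l : List ι) :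
    Rz ((l.countP fun i => (idx i).isNone) * c)
      (fun t => (l.map fun i => ρ ((idx i).getD t)).prod) := by
  induction l with
  | nil => simpa using H.diag 1
  | cons i l ih =>
    rcases hi : idx i with _ | a
    · have := H.mul hρ ih
      convert this using 1
      · rw [List.countP_cons_of_pos (by simp [hi])]; ring
      · funext t; simp [hi]
    · have := H.mul (H.diag (ρ a)) ih
      convert this using 1
      · rw [List.countP_cons_of_neg (by simp [hi])]; ring
      · funext t; simp [hi]

/-- Products along a combinatorial line, one wildcard expensive. -/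
theorem line_exp (H : Realises G g Rz) {ι : Type*} (ρ : Fin 3 → G) (c Λ : ℕ)
    (hρ : ∀ i, 1 ≤ i → i ≤ Λ → Rz (i * c) ρ) (idx : ι → Option (Fin 3)) (e : ℕ) (he : e + 1 ≤ Λ)
    (l : List ι) (hl : ∃ i ∈ l, idx i = none) :
    Rz (((l.countP fun i => (idx i).isNone) + e) * c)
      (fun t => (l.map fun i => ρ ((idx i).getD t)).prod) := by
  induction l with
  | nil => simp at hl
  | cons i l ih =>
    rcases hi : idx i with _ | a
    · have h1 : Rz c ρ := by simpa using hρ 1 le_rfl (by omega)
      have := H.mul (hρ (e + 1) (by omega) he) (H.line_cheap ρ c h1 idx l)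
      convert this using 1
      · rw [List.countP_cons_of_pos (by simp [hi])]; ring
      · funext t; simp [hi]
    · have hl' : ∃ i ∈ l, idx i = none := by
        obtain ⟨i', hi', hi''⟩ := hl
        rcases List.mem_cons.1 hi' with rfl | h
        · rw [hi] at hi''; cases hi''
        · exact ⟨i', h, hi''⟩
      have := H.mul (H.diag (ρ a)) (ih hl')
      convert this using 1
      · rw [List.countP_cons_of_neg (by simp [hi])]; ring
      · funext t; simp [hi]

end Realises

/-- For every number of colours there is a cost `d` such that every colouring of a group with a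
realisation relation has a realised triple of cost `d` with all three entries of one colour. -/
theorem exists_cost (k : ℕ) : ∃ d : ℕ, 0 < d ∧
    ∀ (G : Type) [Group G] (g : ℤ → G) (Rz : ℕ → (Fin 3 → G) → Prop), Realises G g Rz →
      ∀ col : G → Fin k, ∃ r : Fin 3 → G, Rz d r ∧ ∀ t t', col (r t) = col (r t') := by
  obtain ⟨ι, hι, hHJ⟩ := Combinatorics.Line.exists_mono_in_high_dimension (Fin 3) (Fin k)
  set Λ : ℕ := Fintype.card ι + 1 with hΛ
  refine ⟨Λ * ((4 ^ Λ - 2 ^ Λ) * 2 ^ Λ), ?_, ?_⟩
  · have : (2 : ℕ) ^ Λ < 4 ^ Λ := Nat.pow_lt_pow_left (by norm_num) (by omega)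
    have h1 : 0 < 4 ^ Λ - 2 ^ Λ := by omega
    positivity
  · intro G _ g Rz H col
    obtain ⟨ρ, hρ⟩ := H.exists_multi Λ
    obtain ⟨l, cc, hl⟩ := hHJ (fun f => col ((Finset.univ.toList.map fun i => ρ (f i)).prod))
    obtain ⟨i0, hi0⟩ := l.proper
    have hcount : (Finset.univ.toList.countP fun i => (l.idxFun i).isNone) ≤ Fintype.card ι := by
      refine List.countP_le_length.trans ?_
      simp
    have hpos : 0 < (Finset.univ.toList.countP fun i => (l.idxFun i).isNone) := by
      rw [List.countP_pos_iff]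
      exact ⟨i0, by simp, by simp [hi0]⟩
    have key := H.line_exp ρ ((4 ^ Λ - 2 ^ Λ) * 2 ^ Λ) Λ hρ l.idxFun
      (Λ - (Finset.univ.toList.countP fun i => (l.idxFun i).isNone)) (by omega)
      Finset.univ.toList ⟨i0, by simp, hi0⟩
    have hsum : (Finset.univ.toList.countP fun i => (l.idxFun i).isNone) +
        (Λ - (Finset.univ.toList.countP fun i => (l.idxFun i).isNone)) = Λ := by omega
    rw [hsum] at key
    refine ⟨_, key, ?_⟩
    · intro t t'
      have h1 := hl t
      have h2 := hl t'
      exact h1.trans h2.symm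

/-! ### Ultrafilters on words -/

theorem map_mul' {A B : Type} [Mul A] [Mul B] (f : A → B) (hf : ∀ a b, f (a * b) = f a * f b)
    (U V : Ultrafilter A) : (U * V).map f = U.map f * V.map f := by
  refine Ultrafilter.coe_inj.mp (Filter.ext' fun q => ?_)
  rw [Ultrafilter.eventually_mul]
  simp only [Ultrafilter.coe_map, Filter.eventually_map]
  rw [Ultrafilter.eventually_mul]
  simp only [hf]

/-- Words of integers. -/
abbrev Wd := FreeMonoid ℤ

/-- Words of pairs `(x, v)`. -/
abbrev Pr := FreeMonoid (ℤ × ℤ)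

/-- The row `x + tau t * v`. -/
def row (t : Fin 3) : Pr →* Wd := FreeMonoid.map fun q => q.1 + tau t * q.2

/-- The cost. -/
def cost (w : Pr) : ℕ := ((FreeMonoid.toList w).map fun q => q.2.natAbs).sum

theorem cost_mul (w w' : Pr) : cost (w * w') = cost w + cost w' := by
  simp [cost]

/-- The diagonal. -/
def dg : Wd →* Pr := FreeMonoid.map fun x => (x, 0)

theorem row_dg (t : Fin 3) (w : Wd) : row t (dg w) = w := by
  have : (row t).comp dg = MonoidHom.id _ := by
    ext x
    simp [row, dg]
  exact DFunLike.congr_fun this w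

theorem cost_dg (w : Wd) : cost (dg w) = 0 := by
  have h : FreeMonoid.toList (dg w) = (FreeMonoid.toList w).map fun x => (x, (0 : ℤ)) := rfl
  rw [cost, h, List.map_map]
  refine List.sum_eq_zero fun m hm => ?_
  obtain ⟨x, -, hx⟩ := List.mem_map.1 hm
  rw [← hx]
  rfl

/-- Realisation of a triple of ultrafilters. -/
def RzU (κ : ℕ) (r : Fin 3 → Ultrafilter Wd) : Prop :=
  ∃ R : Ultrafilter Pr, (∀ t, R.map (row t) = r t) ∧ ∀ᶠ w in (R : Filter Pr), cost w = κ

theorem RzU.mul {κ κ' : ℕ} {r r' : Fin 3 → Ultrafilter Wd} (h : RzU κ r) (h' : RzU κ' r') :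
    RzU (κ + κ') (fun t => r t * r' t) := by
  obtain ⟨R, hR, hRc⟩ := h
  obtain ⟨R', hR', hRc'⟩ := h'
  refine ⟨R * R', fun t => ?_, ?_⟩
  · rw [map_mul' _ (map_mul (row t)), hR, hR']
  · rw [Ultrafilter.eventually_mul]
    filter_upwards [hRc] with w hw
    filter_upwards [hRc'] with w' hw'
    rw [cost_mul, hw, hw']

theorem RzU.diag (h : Ultrafilter Wd) : RzU 0 (fun _ => h) := by
  refine ⟨h.map dg, fun t => ?_, ?_⟩
  · rw [Ultrafilter.map_map]
    have : (⇑(row t) ∘ ⇑dg) = id := by
      funext w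
      exact row_dg t w
    rw [this, Ultrafilter.map_id]
  · rw [Ultrafilter.coe_map, Filter.eventually_map]
    exact Filter.Eventually.of_forall cost_dg

theorem RzU.letter (y a : ℤ) :
    RzU a.natAbs (fun t => pure (FreeMonoid.of (y + tau t * a))) := by
  refine ⟨pure (FreeMonoid.of (y, a)), fun t => ?_, ?_⟩
  · rw [Ultrafilter.map_pure]
    simp [row]
  · show ∀ᶠ w in (pure (FreeMonoid.of (y, a)) : Filter Pr), cost w = a.natAbs
    rw [Filter.eventually_pure]
    simp [cost]

theorem words (k : ℕ) : ∃ d : ℕ, 0 < d ∧ ∀ c : Wd → Fin k,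
    ∃ w : Pr, cost w = d ∧ ∀ t t', c (row t w) = c (row t' w) := by
  obtain ⟨d, hd, hmain⟩ := exists_cost k
  refine ⟨d, hd, fun c => ?_⟩
  obtain ⟨p, hp, hinv⟩ := exists_group_idempotent (S := Ultrafilter Wd)
    (fun r => Ultrafilter.continuous_mul_left r)
  let _ : Group (Corner p) := cornerGroup p hp hinv
  have hcol : ∀ U : Ultrafilter Wd, ∃ i : Fin k, ∀ᶠ m in (U : Filter Wd), c m = i := by
    intro U
    obtain ⟨i, hi⟩ := (U.map c).eq_pure_of_finite
    refine ⟨i, ?_⟩
    have : ∀ᶠ j in ((U.map c : Ultrafilter (Fin k)) : Filter (Fin k)), j = i := by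
      rw [hi]
      show ∀ᶠ j in (pure i : Filter (Fin k)), j = i
      simp
    rwa [Ultrafilter.coe_map, Filter.eventually_map] at this
  choose colU hcolU using hcol
  let g : ℤ → Corner p := fun y => ⟨p * pure (FreeMonoid.of y) * p,
    by rw [← mul_assoc, ← mul_assoc, hp], by rw [mul_assoc, hp]⟩
  let Rz : ℕ → (Fin 3 → Corner p) → Prop := fun κ r => RzU κ (fun t => (r t).1)
  have hR : Realises (Corner p) g Rz := by
    refine ⟨?_, ?_, ?_⟩
    · intro κ κ' r r' h h'
      exact RzU.mul h h'
    · intro h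
      exact RzU.diag h.1
    · intro y a
      have := ((RzU.diag p).mul (RzU.letter y a)).mul (RzU.diag p)
      simpa using this
  obtain ⟨r, hr, hc⟩ := hmain (Corner p) g Rz hR (fun x => colU x.1)
  obtain ⟨R, hR1, hR2⟩ := hr
  have h3 : ∀ t, ∀ᶠ w in (R : Filter Pr), c (row t w) = colU (r t).1 := by
    intro t
    have h5 := hcolU (R.map (row t))
    rw [Ultrafilter.coe_map, Filter.eventually_map] at h5
    have h6 : R.map (row t) = (r t).1 := hR1 t
    rw [h6] at h5
    exact h5
  obtain ⟨w, hw, hw0, hw1, hw2⟩ := (hR2.and ((h3 0).and ((h3 1).and (h3 2)))).exists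
  refine ⟨w, hw, ?_⟩
  have h4 : ∀ t, c (row t w) = colU (r t).1 := by
    intro t
    fin_cases t
    · exact hw0
    · exact hw1
    · exact hw2
  intro t t'
  rw [h4 t, h4 t', hc t t']

theorem main (k : ℕ) : ∃ d n : ℕ, 0 < d ∧
      ∀ c : (Fin n → ℤ) → Fin k,
        ∃ x v : Fin n → ℤ, (∑ i, |v i|) = (d : ℤ) ∧
          c (x - v) = c x ∧ c x = c (x + v) := by
  obtain ⟨d, hd, hw⟩ := words k
  by_contra hcon
  push Not at hcon
  have hbad : ∀ n : ℕ, ∃ c : (Fin n → ℤ) → Fin k, ∀ x v : Fin n → ℤ,
      (∑ i, |v i|) = (d : ℤ) → c (x - v) = c x → c x ≠ c (x + v) := fun n => hcon d n hd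
  choose c hc using hbad
  let col : Wd → Fin k := fun w =>
    c (FreeMonoid.toList w).length (fun i => (FreeMonoid.toList w).getD i 0)
  obtain ⟨w, hcost, hmono⟩ := hw col
  set n : ℕ := (FreeMonoid.toList w).length with hn
  have hcol : ∀ (l : List ℤ) (m : ℕ), l.length = m →
      col (FreeMonoid.ofList l) = c m (fun i => l.getD i 0) := by
    rintro l _ rfl
    rfl
  set x : Fin n → ℤ := fun i => ((FreeMonoid.toList w).getD i (0, 0)).1 with hx
  set v : Fin n → ℤ := fun i => ((FreeMonoid.toList w).getD i (0, 0)).2 with hv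
  have hrow : ∀ t, col (row t w) = c n (fun i => x i + tau t * v i) := by
    intro t
    have h1 : row t w = FreeMonoid.ofList
        ((FreeMonoid.toList w).map fun q : ℤ × ℤ => q.1 + tau t * q.2) := rfl
    rw [h1, hcol _ n (by simp [hn])]
    congr 1
    funext i
    have hi : (i : ℕ) < (FreeMonoid.toList w).length := i.2
    simp [hx, hv, List.getD_eq_getElem?_getD, hi]
  refine hc n x v ?_ ?_ ?_
  · rw [← hcost, cost]
    push_cast
    have : ∀ l : List (ℤ × ℤ), (∑ i : Fin l.length, |(l.getD i (0, 0)).2|) =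
        (List.map (Nat.cast ∘ fun q : ℤ × ℤ => q.2.natAbs) l).sum := by
      intro l
      induction l with
      | nil => simp
      | cons q l ih =>
        rw [List.map_cons, List.sum_cons, ← ih]
        rw [show (q :: l).length = l.length + 1 from rfl] 
        rw [Fin.sum_univ_succ]
        simp
    rw [List.map_map]
    exact this (FreeMonoid.toList w)
  · have h0 := hrow 0
    have h1 := hrow 1
    have := hmono 0 1
    rw [h0, h1] at this
    convert this using 2
    · funext i; simp [tau]; ring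
    · funext i; simp [tau]
  · have h0 := hrow 1
    have h1 := hrow 2
    have := hmono 1 2
    rw [h0, h1] at this
    convert this using 2
    · funext i; simp [tau]
    · funext i; simp [tau]

end Pool.Agent.MP7ae277
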