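import Pool.Agent.MP7ae277.Main

/-!
# Monochromatic 3-term progressions with fixed ℓ¹-norm step: steps with two sizes of coordinates

The same proof as in `Main.lean`, keeping track of the coordinates of the step (which are
`0, 1, -1` or `2 ^ m`), of the value of `d` and of the size of the configuration.
-/

set_option autoImplicit false

namespace Pool.Agent.MP7ae277

open Filter

attribute [local instance] Ultrafilter.mul Ultrafilter.semigroup

/-- The allowed coordinates of the step. -/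
def Stp (B a : ℤ) : Prop := a = 0 ∨ a = 1 ∨ a = -1 ∨ a = B

/-- Abstract properties of the relation that the triple `r` is realised with cost `κ`. -/
structure Realises2 (G : Type*) [Group G] (B : ℤ) (g : ℤ → G) (Rz : ℕ → (Fin 3 → G) → Prop) :
    Prop where
  mul : ∀ {κ κ' : ℕ} {r r' : Fin 3 → G}, Rz κ r → Rz κ' r' → Rz (κ + κ') (r * r')
  diag : ∀ h : G, Rz 0 (fun _ => h)
  letter : ∀ y a : ℤ, Stp B a → Rz a.natAbs (fun t => g (y + tau t * a))

namespace Realises2

variable {G : Type*} [Group G] {B : ℤ} {g : ℤ → G} {Rz : ℕ → (Fin 3 → G) → Prop}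

theorem pow (H : Realises2 G B g Rz) {κ : ℕ} {r : Fin 3 → G} (h : Rz κ r) (m : ℕ) :
    Rz (m * κ) (r ^ m) := by
  induction m with
  | zero =>
    rw [zero_mul, pow_zero]
    exact H.diag 1
  | succ m ih =>
    have := H.mul ih h
    rwa [← pow_succ, ← Nat.succ_mul] at this

/-- The doubling relation. -/
theorem double (H : Realises2 G B g Rz) (κ : ℕ) (a : ℤ)
    (h1 : ∀ y, Rz κ (fun t => g (y + tau t * a)))
    (h2 : ∀ y, Rz κ (fun t => g (y + tau t * (-a)))) (y : ℤ) :
    Rz (4 * κ) (fun t => g (y + tau t * (2 * a))) := by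
  have h := H.mul (H.mul (H.mul (H.mul (H.mul (H.mul (h1 y) (H.diag (g (y - a))⁻¹)) (h1 (y - a)))
    (H.diag (g y)⁻¹)) (h2 y)) (H.diag (g (y + a))⁻¹)) (h1 (y + a))
  convert h using 1
  · ring
  · funext t
    simp only [Pi.mul_apply]
    fin_cases t
    · have e1 : y + tau 0 * (2 * a) = y - 2 * a := by simp [tau]; ring
      have e2 : y + tau 0 * a = y - a := by simp [tau]; ring
      have e3 : y - a + tau 0 * a = y - 2 * a := by simp [tau]; ring
      have e4 : y + tau 0 * (-a) = y + a := by simp [tau]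
      have e5 : y + a + tau 0 * a = y := by simp [tau]
      simp only [Fin.zero_eta, e1, e2, e3, e4, e5]
      group
    · have e1 : ∀ z b : ℤ, z + tau 1 * b = z := by intro z b; simp [tau]
      simp only [Fin.mk_one, e1]
      group
    · have e0 : (⟨2, by norm_num⟩ : Fin 3) = 2 := rfl
      have e1 : y + tau 2 * (2 * a) = y + 2 * a := by simp [tau]
      have e2 : y + tau 2 * a = y + a := by simp [tau]
      have e3 : y - a + tau 2 * a = y := by simp [tau]
      have e4 : y + tau 2 * (-a) = y - a := by simp [tau]; ring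
      have e5 : y + a + tau 2 * a = y + 2 * a := by simp [tau]; ring
      simp only [Fin.reduceFinMk, e1, e2, e3, e4, e5]
      group

theorem four_pow (H : Realises2 G B g Rz) (j : ℕ) :
    (∀ y, Rz (4 ^ j) (fun t => g (y + tau t * 2 ^ j))) ∧
      (∀ y, Rz (4 ^ j) (fun t => g (y + tau t * (-2 ^ j)))) := by
  induction j with
  | zero =>
    refine ⟨fun y => ?_, fun y => ?_⟩
    · simpa using H.letter y 1 (Or.inr (Or.inl rfl))
    · simpa using H.letter y (-1) (Or.inr (Or.inr (Or.inl rfl)))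
  | succ j ih =>
    obtain ⟨h1, h2⟩ := ih
    refine ⟨fun y => ?_, fun y => ?_⟩
    · have := H.double (4 ^ j) (2 ^ j) h1 h2 y
      convert this using 1
      · ring
      · funext t; congr 2; ring
    · have := H.double (4 ^ j) (-2 ^ j) h2 (by simpa using h1) y
      convert this using 1
      · ring
      · funext t; congr 2; ring

/-- A triple which is realised with all the costs `c, 2c, …, Λc`. -/
theorem exists_multi (Λ : ℕ) (H : Realises2 G (2 ^ Λ) g Rz) :
    ∃ ρ : Fin 3 → G, ∀ i : ℕ, 1 ≤ i → i ≤ Λ → Rz (i * ((4 ^ Λ - 2 ^ Λ) * 2 ^ Λ)) ρ := by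
  have hbig : Rz (4 ^ Λ) (fun t => g (0 + tau t * 2 ^ Λ)) := (H.four_pow Λ).1 0
  have hsmall : Rz (2 ^ Λ) (fun t => g (0 + tau t * 2 ^ Λ)) := by
    have := H.letter 0 (2 ^ Λ) (Or.inr (Or.inr (Or.inr rfl)))
    simpa [Int.natAbs_pow] using this
  refine ⟨(fun t => g (0 + tau t * 2 ^ Λ)) ^ (4 ^ Λ - 2 ^ Λ), fun i hi1 hi2 => ?_⟩
  have hΛ : Λ ≤ 2 ^ Λ := Nat.lt_two_pow_self.le
  have h42 : (4 : ℕ) ^ Λ = 2 ^ Λ * 2 ^ Λ := by rw [← mul_pow]; norm_num
  have hs : (i - 1) * 2 ^ Λ ≤ 4 ^ Λ - 2 ^ Λ := by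
    rw [h42, ← Nat.sub_one_mul]
    exact Nat.mul_le_mul_right _ (by omega)
  have h := H.mul (H.pow hsmall (4 ^ Λ - 2 ^ Λ - (i - 1) * 2 ^ Λ))
    (H.pow hbig ((i - 1) * 2 ^ Λ))
  rw [← pow_add, Nat.sub_add_cancel hs] at h
  convert h using 1
  obtain ⟨i, rfl⟩ : ∃ m, i = m + 1 := ⟨i - 1, by omega⟩
  simp only [Nat.add_sub_cancel] at hs ⊢
  have hle : (2 : ℕ) ^ Λ ≤ 4 ^ Λ := Nat.pow_le_pow_left (by norm_num) _
  zify [hs, hle]
  ring

/-- Products along a combinatorial line, all wildcards cheap. -/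
theorem line_cheap (H : Realises2 G B g Rz) {ι : Type*} (ρ : Fin 3 → G) (c : ℕ)
    (hρ : Rz c ρ) (idx : ι → Option (Fin 3)) (l : List ι) :
    Rz ((l.countP fun i => (idx i).isNone) * c)
      (fun t => (l.map fun i => ρ ((idx i).getD t)).prod) := by
  induction l with
  | nil => simpa using H.diag 1
  | cons i l ih =>
    rcases hi : idx i with _ | a
    · have := H.mul hρ ih
      convert this using 1
      · rw [List.countP_cons_of_pos (by simp [hi])]; ring
      · funext t; simp [hi]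
    · have := H.mul (H.diag (ρ a)) ih
      convert this using 1
      · rw [List.countP_cons_of_neg (by simp [hi])]; ring
      · funext t; simp [hi]

/-- Products along a combinatorial line, one wildcard expensive. -/
theorem line_exp (H : Realises2 G B g Rz) {ι : Type*} (ρ : Fin 3 → G) (c Λ : ℕ)
    (hρ : ∀ i, 1 ≤ i → i ≤ Λ → Rz (i * c) ρ) (idx : ι → Option (Fin 3)) (e : ℕ) (he : e + 1 ≤ Λ)
    (l : List ι) (hl : ∃ i ∈ l, idx i = none) :
    Rz (((l.countP fun i => (idx i).isNone) + e) * c)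
      (fun t => (l.map fun i => ρ ((idx i).getD t)).prod) := by
  induction l with
  | nil => simp at hl
  | cons i l ih =>
    rcases hi : idx i with _ | a
    · have h1 : Rz c ρ := by simpa using hρ 1 le_rfl (by omega)
      have := H.mul (hρ (e + 1) (by omega) he) (H.line_cheap ρ c h1 idx l)
      convert this using 1
      · rw [List.countP_cons_of_pos (by simp [hi])]; ring
      · funext t; simp [hi]
    · have hl' : ∃ i ∈ l, idx i = none := by
        obtain ⟨i', hi', hi''⟩ := hl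
        rcases List.mem_cons.1 hi' with rfl | h
        · rw [hi] at hi''; cases hi''
        · exact ⟨i', h, hi''⟩
      have := H.mul (H.diag (ρ a)) (ih hl')
      convert this using 1
      · rw [List.countP_cons_of_neg (by simp [hi])]; ring
      · funext t; simp [hi]

end Realises2

/-- Every `k`-colouring of `{0,1,2}^N` has a monochromatic combinatorial line. -/
def HasLine (k N : ℕ) : Prop :=
  ∀ C : (Fin N → Fin 3) → Fin k, ∃ l : Combinatorics.Line (Fin 3) (Fin N), l.IsMono C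

/-- The Hales-Jewett theorem, with index set `Fin N`. -/
theorem exists_hasLine (k : ℕ) : ∃ N, HasLine k N := by
  obtain ⟨ι, hι, hHJ⟩ := Combinatorics.Line.exists_mono_in_high_dimension (Fin 3) (Fin k)
  refine ⟨Fintype.card ι, fun C => ?_⟩
  let e := Fintype.equivFin ι
  obtain ⟨l, c, hl⟩ := hHJ (fun f => C (f ∘ e.symm))
  refine ⟨⟨fun i => l.idxFun (e.symm i), ?_⟩, c, fun x => ?_⟩
  · obtain ⟨i, hi⟩ := l.proper
    exact ⟨e i, by rw [e.symm_apply_apply]; exact hi⟩
  · rw [← hl x]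
    rfl

/-- The explicit cost. -/
def d0 (N : ℕ) : ℕ := (N + 1) * ((4 ^ (N + 1) - 2 ^ (N + 1)) * 2 ^ (N + 1))

theorem d0_pos (N : ℕ) : 0 < d0 N := by
  have : (2 : ℕ) ^ (N + 1) < 4 ^ (N + 1) := Nat.pow_lt_pow_left (by norm_num) (by omega)
  have h1 : 0 < 4 ^ (N + 1) - 2 ^ (N + 1) := by omega
  unfold d0
  positivity

/-- Every colouring of a group with a realisation relation has a realised triple of cost `d0 N`
with all three entries of one colour. -/
theorem exists_cost2 {k N : ℕ} (hHJ : HasLine k N)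
    (G : Type) [Group G] (g : ℤ → G) (Rz : ℕ → (Fin 3 → G) → Prop)
    (H : Realises2 G (2 ^ (N + 1)) g Rz) (col : G → Fin k) :
    ∃ r : Fin 3 → G, Rz (d0 N) r ∧ ∀ t t', col (r t) = col (r t') := by
  set Λ : ℕ := N + 1 with hΛ
  obtain ⟨ρ, hρ⟩ := H.exists_multi Λ
  obtain ⟨l, cc, hl⟩ := hHJ (fun f => col ((Finset.univ.toList.map fun i => ρ (f i)).prod))
  obtain ⟨i0, hi0⟩ := l.proper
  have hcount : (Finset.univ.toList.countP fun i => (l.idxFun i).isNone) ≤ N := by
    refine List.countP_le_length.trans ?_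
    simp
  have hpos : 0 < (Finset.univ.toList.countP fun i => (l.idxFun i).isNone) := by
    rw [List.countP_pos_iff]
    exact ⟨i0, by simp, by simp [hi0]⟩
  have key := H.line_exp ρ ((4 ^ Λ - 2 ^ Λ) * 2 ^ Λ) Λ hρ l.idxFun
    (Λ - (Finset.univ.toList.countP fun i => (l.idxFun i).isNone)) (by omega)
    Finset.univ.toList ⟨i0, by simp, hi0⟩
  have hsum : (Finset.univ.toList.countP fun i => (l.idxFun i).isNone) +
      (Λ - (Finset.univ.toList.countP fun i => (l.idxFun i).isNone)) = Λ := by omega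
  rw [hsum] at key
  refine ⟨_, key, ?_⟩
  · intro t t'
    have h1 := hl t
    have h2 := hl t'
    exact h1.trans h2.symm

/-! ### Ultrafilters on words -/

/-- Realisation of a triple of ultrafilters, with steps in `Stp B`. -/
def RzU2 (B : ℤ) (κ : ℕ) (r : Fin 3 → Ultrafilter Wd) : Prop :=
  ∃ R : Ultrafilter Pr, (∀ t, R.map (row t) = r t) ∧
    ∀ᶠ w in (R : Filter Pr), cost w = κ ∧ ∀ q ∈ FreeMonoid.toList w, Stp B q.2

theorem RzU2.mul {B : ℤ} {κ κ' : ℕ} {r r' : Fin 3 → Ultrafilter Wd} (h : RzU2 B κ r)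
    (h' : RzU2 B κ' r') : RzU2 B (κ + κ') (fun t => r t * r' t) := by
  obtain ⟨R, hR, hRc⟩ := h
  obtain ⟨R', hR', hRc'⟩ := h'
  refine ⟨R * R', fun t => ?_, ?_⟩
  · rw [map_mul' _ (map_mul (row t)), hR, hR']
  · rw [Ultrafilter.eventually_mul]
    filter_upwards [hRc] with w hw
    filter_upwards [hRc'] with w' hw'
    refine ⟨by rw [cost_mul, hw.1, hw'.1], fun q hq => ?_⟩
    rw [FreeMonoid.toList_mul, List.mem_append] at hq
    rcases hq with hq | hq
    · exact hw.2 q hq
    · exact hw'.2 q hq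

theorem RzU2.diag (B : ℤ) (h : Ultrafilter Wd) : RzU2 B 0 (fun _ => h) := by
  refine ⟨h.map dg, fun t => ?_, ?_⟩
  · rw [Ultrafilter.map_map]
    have : (⇑(row t) ∘ ⇑dg) = id := by
      funext w
      exact row_dg t w
    rw [this, Ultrafilter.map_id]
  · rw [Ultrafilter.coe_map, Filter.eventually_map]
    refine Filter.Eventually.of_forall fun w => ⟨cost_dg w, fun q hq => ?_⟩
    have h : FreeMonoid.toList (dg w) = (FreeMonoid.toList w).map fun x => (x, (0 : ℤ)) := rfl
    rw [h] at hq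
    obtain ⟨x, -, rfl⟩ := List.mem_map.1 hq
    exact Or.inl rfl

theorem RzU2.letter {B : ℤ} (y a : ℤ) (ha : Stp B a) :
    RzU2 B a.natAbs (fun t => pure (FreeMonoid.of (y + tau t * a))) := by
  refine ⟨pure (FreeMonoid.of (y, a)), fun t => ?_, ?_⟩
  · rw [Ultrafilter.map_pure]
    simp [row]
  · show ∀ᶠ w in (pure (FreeMonoid.of (y, a)) : Filter Pr), cost w = a.natAbs ∧
      ∀ q ∈ FreeMonoid.toList w, Stp B q.2
    rw [Filter.eventually_pure]
    refine ⟨by simp [cost], fun q hq => ?_⟩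
    have hq' : q ∈ [(y, a)] := hq
    rw [List.mem_singleton] at hq'
    rw [hq']
    exact ha

theorem words2 {k N : ℕ} (hHJ : HasLine k N) (c : Wd → Fin k) :
    ∃ w : Pr, cost w = d0 N ∧ (∀ q ∈ FreeMonoid.toList w, Stp (2 ^ (N + 1)) q.2) ∧
      ∀ t t', c (row t w) = c (row t' w) := by
  obtain ⟨p, hp, hinv⟩ := exists_group_idempotent (S := Ultrafilter Wd)
    (fun r => Ultrafilter.continuous_mul_left r)
  let _ : Group (Corner p) := cornerGroup p hp hinv
  have hcol : ∀ U : Ultrafilter Wd, ∃ i : Fin k, ∀ᶠ m in (U : Filter Wd), c m = i := by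
    intro U
    obtain ⟨i, hi⟩ := (U.map c).eq_pure_of_finite
    refine ⟨i, ?_⟩
    have : ∀ᶠ j in ((U.map c : Ultrafilter (Fin k)) : Filter (Fin k)), j = i := by
      rw [hi]
      show ∀ᶠ j in (pure i : Filter (Fin k)), j = i
      simp
    rwa [Ultrafilter.coe_map, Filter.eventually_map] at this
  choose colU hcolU using hcol
  let g : ℤ → Corner p := fun y => ⟨p * pure (FreeMonoid.of y) * p,
    by rw [← mul_assoc, ← mul_assoc, hp], by rw [mul_assoc, hp]⟩
  let Rz : ℕ → (Fin 3 → Corner p) → Prop := fun κ r => RzU2 (2 ^ (N + 1)) κ (fun t => (r t).1)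
  have hR : Realises2 (Corner p) (2 ^ (N + 1)) g Rz := by
    refine ⟨?_, ?_, ?_⟩
    · intro κ κ' r r' h h'
      exact RzU2.mul h h'
    · intro h
      exact RzU2.diag _ h.1
    · intro y a ha
      have := ((RzU2.diag (2 ^ (N + 1)) p).mul (RzU2.letter y a ha)).mul (RzU2.diag _ p)
      simpa using this
  obtain ⟨r, hr, hc⟩ := exists_cost2 hHJ (Corner p) g Rz hR (fun x => colU x.1)
  obtain ⟨R, hR1, hR2⟩ := hr
  have h3 : ∀ t, ∀ᶠ w in (R : Filter Pr), c (row t w) = colU (r t).1 := by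
    intro t
    have h5 := hcolU (R.map (row t))
    rw [Ultrafilter.coe_map, Filter.eventually_map] at h5
    have h6 : R.map (row t) = (r t).1 := hR1 t
    rw [h6] at h5
    exact h5
  obtain ⟨w, hw, hw0, hw1, hw2⟩ := (hR2.and ((h3 0).and ((h3 1).and (h3 2)))).exists
  refine ⟨w, hw.1, hw.2, ?_⟩
  have h4 : ∀ t, c (row t w) = colU (r t).1 := by
    intro t
    fin_cases t
    · exact hw0
    · exact hw1
    · exact hw2
  intro t t'
  rw [h4 t, h4 t', hc t t']

/-- The statement for the lattice, all steps in `Stp (2 ^ (N + 1))`, in dimension `n`. -/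
def Good (k N n : ℕ) (c : (Fin n → ℤ) → Fin k) (x v : Fin n → ℤ) : Prop :=
  (∀ i, Stp (2 ^ (N + 1)) (v i)) ∧ (∑ i, |v i|) = (d0 N : ℤ) ∧ c (x - v) = c x ∧ c (x + v) = c x

theorem exists_dim {k N : ℕ} (hHJ : HasLine k N) :
    ∃ n : ℕ, ∀ c : (Fin n → ℤ) → Fin k, ∃ x v : Fin n → ℤ, Good k N n c x v := by
  by_contra hcon
  push Not at hcon
  choose c hc using hcon
  let col : Wd → Fin k := fun w =>
    c (FreeMonoid.toList w).length (fun i => (FreeMonoid.toList w).getD i 0)
  obtain ⟨w, hcost, hstp, hmono⟩ := words2 hHJ col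
  set n : ℕ := (FreeMonoid.toList w).length with hn
  have hcol : ∀ (l : List ℤ) (m : ℕ), l.length = m →
      col (FreeMonoid.ofList l) = c m (fun i => l.getD i 0) := by
    rintro l _ rfl
    rfl
  set x : Fin n → ℤ := fun i => ((FreeMonoid.toList w).getD i (0, 0)).1 with hx
  set v : Fin n → ℤ := fun i => ((FreeMonoid.toList w).getD i (0, 0)).2 with hv
  have hrow : ∀ t, col (row t w) = c n (fun i => x i + tau t * v i) := by
    intro t
    have h1 : row t w = FreeMonoid.ofList
        ((FreeMonoid.toList w).map fun q : ℤ × ℤ => q.1 + tau t * q.2) := rfl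
    rw [h1, hcol _ n (by simp [hn])]
    congr 1
    funext i
    have hi : (i : ℕ) < (FreeMonoid.toList w).length := i.2
    simp [hx, hv, List.getD_eq_getElem?_getD, hi]
  refine hc n x v ⟨?_, ?_, ?_, ?_⟩
  · intro i
    refine hstp _ ?_
    have hi : (i : ℕ) < (FreeMonoid.toList w).length := i.2
    rw [List.getD_eq_getElem _ _ hi]
    exact List.getElem_mem hi
  · rw [← hcost, cost]
    push_cast
    have : ∀ l : List (ℤ × ℤ), (∑ i : Fin l.length, |(l.getD i (0, 0)).2|) =
        (List.map (Nat.cast ∘ fun q : ℤ × ℤ => q.2.natAbs) l).sum := by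
      intro l
      induction l with
      | nil => simp
      | cons q l ih =>
        rw [List.map_cons, List.sum_cons, ← ih]
        rw [show (q :: l).length = l.length + 1 from rfl]
        rw [Fin.sum_univ_succ]
        simp
    rw [List.map_map]
    exact this (FreeMonoid.toList w)
  · have h0 := hrow 0
    have h1 := hrow 1
    have := hmono 0 1
    rw [h0, h1] at this
    convert this using 2
    · funext i; simp [tau]; ring
    · funext i; simp [tau]
  · have h0 := hrow 1
    have h1 := hrow 2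
    have := hmono 2 1
    rw [h0, h1] at this
    convert this using 2
    · funext i; simp [tau]
    · funext i; simp [tau]

/-- One more dimension. -/
theorem Good.succ {k N n : ℕ}
    (h : ∀ c : (Fin n → ℤ) → Fin k, ∃ x v : Fin n → ℤ, Good k N n c x v)
    (c : (Fin (n + 1) → ℤ) → Fin k) : ∃ x v : Fin (n + 1) → ℤ, Good k N (n + 1) c x v := by
  obtain ⟨x, v, h1, h2, h3, h4⟩ := h (fun y => c (Fin.cons 0 y))
  refine ⟨Fin.cons 0 x, Fin.cons 0 v, ?_, ?_, ?_, ?_⟩
  · intro i
    refine Fin.cases ?_ (fun j => ?_) i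
    · exact Or.inl rfl
    · exact h1 j
  · rw [Fin.sum_univ_succ]
    simpa using h2
  · convert h3 using 2
    funext i
    refine Fin.cases ?_ (fun j => ?_) i <;> simp
  · convert h4 using 2
    funext i
    refine Fin.cases ?_ (fun j => ?_) i <;> simp

/-- Compactness: the configuration lies in a box. -/
theorem exists_box {k N n : ℕ}
    (h : ∀ c : (Fin n → ℤ) → Fin k, ∃ x v : Fin n → ℤ, Good k N n c x v) :
    ∃ M : ℕ, ∀ c : (Fin n → ℤ) → Fin k, ∃ x v : Fin n → ℤ, Good k N n c x v ∧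
      ∀ i, |x i| + |v i| ≤ (M : ℤ) := by
  by_contra hcon
  push Not at hcon
  choose c hc using hcon
  let U : Ultrafilter ℕ := hyperfilter ℕ
  have hlim : ∀ x : Fin n → ℤ, ∃ i : Fin k, ∀ᶠ M in (U : Filter ℕ), c M x = i := by
    intro x
    obtain ⟨i, hi⟩ := (U.map fun M => c M x).eq_pure_of_finite
    refine ⟨i, ?_⟩
    have : ∀ᶠ j in ((U.map (fun M => c M x) : Ultrafilter (Fin k)) : Filter (Fin k)), j = i := by
      rw [hi]
      show ∀ᶠ j in (pure i : Filter (Fin k)), j = i
      simp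
    rwa [Ultrafilter.coe_map, Filter.eventually_map] at this
  choose c' hc' using hlim
  obtain ⟨x, v, h1, h2, h3, h4⟩ := h c'
  obtain ⟨M₀, hM₀⟩ : ∃ M₀ : ℕ, ∀ i, |x i| + |v i| ≤ (M₀ : ℤ) := by
    refine ⟨(∑ i, (|x i| + |v i|)).toNat, fun i => ?_⟩
    have h5 : |x i| + |v i| ≤ ∑ i, (|x i| + |v i|) :=
      Finset.single_le_sum (f := fun i => |x i| + |v i|) (fun j _ => by positivity)
        (Finset.mem_univ i)
    omega
  have hev : ∀ᶠ M in (U : Filter ℕ), M₀ ≤ M := by
    have : ∀ᶠ M in Filter.cofinite, M₀ ≤ M := by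
      rw [Nat.cofinite_eq_atTop]
      exact Filter.eventually_ge_atTop M₀
    exact Filter.Eventually.filter_mono Filter.hyperfilter_le_cofinite this
  obtain ⟨M, e1, e2, e3, e4⟩ :=
    ((hc' (x - v)).and ((hc' x).and ((hc' (x + v)).and hev))).exists
  obtain ⟨i, hi⟩ := hc M x v ⟨h1, h2, by rw [e1, e2, h3], by rw [e3, e2, h4]⟩
  have h5 := hM₀ i
  have h6 : (M₀ : ℤ) ≤ M := by exact_mod_cast e4
  omega

/-- The final form. -/
theorem main2 {k N : ℕ} (hk : 1 ≤ k) (hHJ : HasLine k N) :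
    ∃ n₀ : ℕ, 1 ≤ n₀ ∧ ∀ n : ℕ, n₀ ≤ n → ∀ s : ℕ, 1 ≤ s → ∃ M : ℕ,
      ∀ c : (Fin n → ℤ) → Fin k, ∃ x v : Fin n → ℤ,
        (∀ i, v i = 0 ∨ v i = s ∨ v i = -s ∨ v i = s * 2 ^ (N + 1)) ∧
        (∑ i, |v i|) = s * (d0 N : ℤ) ∧ (∀ i, |x i| + |v i| ≤ (M : ℤ)) ∧
        c (x - v) = c x ∧ c (x + v) = c x := by
  obtain ⟨n₀, h₀⟩ := exists_dim hHJ
  have hpos : 1 ≤ n₀ := by
    rcases Nat.eq_zero_or_pos n₀ with rfl | h
    · exfalso
      obtain ⟨x, v, -, h2, -⟩ := h₀ (fun _ => ⟨0, hk⟩)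
      have := d0_pos N
      simp at h2
      omega
    · exact h
  refine ⟨n₀, hpos, fun n hn s hs => ?_⟩
  have hall : ∀ c : (Fin n → ℤ) → Fin k, ∃ x v : Fin n → ℤ, Good k N n c x v := by
    induction n, hn using Nat.le_induction with
    | base => exact h₀
    | succ n hn ih => exact Good.succ ih
  obtain ⟨M, hM⟩ := exists_box hall
  refine ⟨s * M, fun c => ?_⟩
  obtain ⟨x, v, ⟨h1, h2, h3, h4⟩, h5⟩ := hM (fun y => c (fun i => s * y i))
  have hs' : (0 : ℤ) < s := by exact_mod_cast hs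
  refine ⟨fun i => s * x i, fun i => s * v i, ?_, ?_, ?_, ?_, ?_⟩
  · intro i
    show (s : ℤ) * v i = 0 ∨ (s : ℤ) * v i = s ∨ (s : ℤ) * v i = -s ∨
      (s : ℤ) * v i = s * 2 ^ (N + 1)
    rcases h1 i with h | h | h | h <;> rw [h]
    · left; ring
    · right; left; ring
    · right; right; left; ring
    · right; right; right; rfl
  · rw [← h2, Finset.mul_sum]
    refine Finset.sum_congr rfl fun i _ => ?_
    rw [abs_mul, abs_of_pos hs']
  · intro i
    rw [abs_mul, abs_mul, abs_of_pos hs', ← mul_add]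
    push_cast
    exact mul_le_mul_of_nonneg_left (h5 i) hs'.le
  · convert h3 using 2
    funext i
    simp only [Pi.sub_apply]
    ring
  · convert h4 using 2
    funext i
    simp only [Pi.add_apply]
    ring

end Pool.Agent.MP7ae277
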